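import Pool.Agent.X12.Circ
import Pool.Agent.X12.Pf

/-!
# The Jacobi-symbol determinant `{3,2}_n` for `n ≡ 3 (mod 8)`

If `n` is composite the determinant vanishes.  If `n = p` is a prime, then after ordering the indices by
powers of a generator the matrix splits into two principal minors of circulant matrices of odd order
`N = (p - 1) / 2` with zero sums; one is a shift of a skew-symmetric circulant, so its cofactor is a
square, the other one is a shift of a symmetric circulant, which is a product of two skew-symmetric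
circulants, so its cofactor is `N` times a square.
-/

set_option autoImplicit false

namespace Pool.Agent.Results.MP_72abcc_nt.TotientSquare

open Matrix Finset Pool.Agent.X12

/-- The matrix with the entries `(j² + 3 j k + 2 k² / n)`, `1 < j, k < n - 1`. -/
def M (n : ℕ) : Matrix (Finset.Ioo 1 (n - 1)) (Finset.Ioo 1 (n - 1)) ℤ :=
  Matrix.of fun j k => jacobiSym ((j : ℤ) ^ 2 + 3 * j * k + 2 * (k : ℤ) ^ 2) n

/-! ### Composite numbers that are not squarefree -/

lemma jacobi_periodic {p m : ℕ} [NeZero p] [NeZero m] (a b : ℤ)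
    (h : ((p * m : ℕ) : ℤ) ∣ a - b) : jacobiSym a (p * (p * m)) = jacobiSym b (p * (p * m)) := by
  have hp : a % p = b % p := by
    apply Int.ModEq.eq
    exact (Int.modEq_iff_dvd.2 (by
      have : ((p : ℕ) : ℤ) ∣ ((p * m : ℕ) : ℤ) := by push_cast; exact Dvd.intro _ rfl
      have h2 := (this.trans h)
      rw [← neg_sub, dvd_neg]; exact h2))
  have hm : a % m = b % m := by
    apply Int.ModEq.eq
    exact (Int.modEq_iff_dvd.2 (by
      have : ((m : ℕ) : ℤ) ∣ ((p * m : ℕ) : ℤ) := by push_cast; exact Dvd.intro_left _ rfl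
      have h2 := (this.trans h)
      rw [← neg_sub, dvd_neg]; exact h2))
  rw [jacobiSym.mul_right, jacobiSym.mul_right, jacobiSym.mul_right, jacobiSym.mul_right,
    jacobiSym.mod_left a p, jacobiSym.mod_left b p, jacobiSym.mod_left a m, jacobiSym.mod_left b m,
    hp, hm]

lemma det_nonsquarefree {n p m : ℕ} (hp : 1 < p) (hm : 0 < m) (hn : n = p * (p * m)) (hodd : n % 2 = 1) :
    (M n).det = 0 := by
  have : NeZero p := ⟨by omega⟩
  have : NeZero m := ⟨by omega⟩
  have hp3 : 3 ≤ p := by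
    rcases Nat.lt_or_ge p 3 with h | h
    · exfalso
      have : p = 2 := by omega
      rw [hn, this] at hodd
      omega
    · exact h
  have h1 : 3 ≤ p * m := by nlinarith
  have h2 : 3 * (p * m) ≤ n := by rw [hn]; exact Nat.mul_le_mul_right _ hp3
  have hk2 : 2 ∈ Finset.Ioo 1 (n - 1) := by rw [Finset.mem_Ioo]; omega
  have hk2' : 2 + p * m ∈ Finset.Ioo 1 (n - 1) := by rw [Finset.mem_Ioo]; omega
  refine Matrix.det_zero_of_column_eq (i := ⟨2, hk2⟩) (j := ⟨2 + p * m, hk2'⟩) ?_ fun k => ?_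
  · intro h
    have := congrArg Subtype.val h
    simp only at this
    omega
  · have key : ∀ a b : ℤ, ((p * m : ℕ) : ℤ) ∣ a - b → jacobiSym a n = jacobiSym b n := by
      intro a b hab
      rw [hn]
      exact jacobi_periodic a b hab
    simp only [M, Matrix.of_apply]
    apply key
    refine ⟨-(3 * ((k : ℕ) : ℤ) + 2 * (2 + (2 + ((p * m : ℕ) : ℤ)))), ?_⟩
    push_cast
    ring

/-! ### Squarefree composite numbers -/

section

variable {p : ℕ} [Fact p.Prime]

lemma sum_cubic (hp : p % 4 = 3) (j : ZMod p) :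
    ∑ x : ZMod p, qc p (x * (j + x) * (j + 2 * x)) = 0 := by
  have h1 : ∑ x : ZMod p, qc p ((-j - x) * (j + (-j - x)) * (j + 2 * (-j - x))) =
      ∑ x : ZMod p, qc p (x * (j + x) * (j + 2 * x)) :=
    Fintype.sum_equiv (Equiv.subLeft (-j)) _ _ fun x => rfl
  have h2 : ∀ x : ZMod p, qc p ((-j - x) * (j + (-j - x)) * (j + 2 * (-j - x))) =
      -qc p (x * (j + x) * (j + 2 * x)) := by
    intro x
    rw [show (-j - x) * (j + (-j - x)) * (j + 2 * (-j - x)) = -(x * (j + x) * (j + 2 * x)) by ring,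
      qc_neg, qc_neg_one_of_three hp]
    ring
  rw [Finset.sum_congr rfl fun x _ => h2 x, Finset.sum_neg_distrib] at h1
  linarith

lemma jacobi_prime (a : ℤ) : jacobiSym a p = qc p (a : ZMod p) := by
  rw [← jacobiSym.legendreSym.to_jacobiSym, legendre_eq]

/-- the sum over the multiples of `n'` -/
lemma sum_mult {n' : ℕ} (hp : p % 4 = 3) (hcop : Nat.Coprime p n') (h1 : 1 < n') (j : ℤ) :
    ∑ k ∈ range (p * n'), jacobiSym (j ^ 2 + 3 * j * k + 2 * (k : ℤ) ^ 2) (p * n') *
      (if n' ∣ k then jacobiSym k p else 0) = 0 := by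
  have : NeZero n' := ⟨by omega⟩
  have hn'0 : ((n' : ℕ) : ZMod p) ≠ 0 := by
    rw [Ne, ZMod.natCast_eq_zero_iff]
    intro h
    have h2 := Nat.Coprime.eq_one_of_dvd hcop h
    exact (Fact.out : p.Prime).one_lt.ne' h2
  have e1 : ∑ k ∈ range (p * n'), jacobiSym (j ^ 2 + 3 * j * k + 2 * (k : ℤ) ^ 2) (p * n') *
      (if n' ∣ k then jacobiSym k p else 0) =
      ∑ t ∈ range p, jacobiSym (j ^ 2) n' * qc p (((n' * t : ℕ) : ZMod p) * (j + ((n' * t : ℕ) : ZMod p)) *
        (j + 2 * ((n' * t : ℕ) : ZMod p))) := by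
    symm
    rw [← Finset.sum_filter_add_sum_filter_not (range (p * n')) (fun k => n' ∣ k)]
    rw [Finset.sum_eq_zero (s := (range (p * n')).filter (fun k => ¬ n' ∣ k))
      (fun k hk => by rw [if_neg (Finset.mem_filter.1 hk).2, mul_zero]), add_zero]
    refine Finset.sum_bij (fun t _ => n' * t) ?_ ?_ ?_ ?_
    · intro t ht
      rw [Finset.mem_filter, Finset.mem_range]
      refine ⟨?_, Dvd.intro _ rfl⟩
      rw [mul_comm p n']
      exact Nat.mul_lt_mul_of_pos_left (Finset.mem_range.1 ht) (by omega)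
    · intro a _ b _ h
      exact Nat.eq_of_mul_eq_mul_left (by omega) h
    · intro k hk
      rw [Finset.mem_filter, Finset.mem_range] at hk
      obtain ⟨t, rfl⟩ := hk.2
      refine ⟨t, Finset.mem_range.2 ?_, rfl⟩
      rw [mul_comm p n'] at hk
      exact Nat.lt_of_mul_lt_mul_left hk.1
    · intro t _
      rw [if_pos (Dvd.intro _ rfl), jacobiSym.mul_right, jacobi_prime (p := p), jacobi_prime (p := p)]
      have h3 : jacobiSym (j ^ 2 + 3 * j * ((n' * t : ℕ) : ℤ) + 2 * ((n' * t : ℕ) : ℤ) ^ 2) n' =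
          jacobiSym (j ^ 2) n' := by
        rw [jacobiSym.mod_left, jacobiSym.mod_left (j ^ 2)]
        congr 1
        push_cast
        rw [show j ^ 2 + 3 * j * ((n' : ℤ) * t) + 2 * ((n' : ℤ) * t) ^ 2 =
          j ^ 2 + n' * (3 * j * t + 2 * n' * t ^ 2) by ring, Int.add_mul_emod_self_left]
      rw [h3]
      have h4 : qc p (((n' * t : ℕ) : ZMod p) * (j + ((n' * t : ℕ) : ZMod p)) *
          (j + 2 * ((n' * t : ℕ) : ZMod p))) =
          qc p (((j ^ 2 + 3 * j * ((n' * t : ℕ) : ℤ) + 2 * ((n' * t : ℕ) : ℤ) ^ 2 : ℤ)) : ZMod p) *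
            qc p ((((n' * t : ℕ) : ℤ)) : ZMod p) := by
        rw [← qc_mul]
        congr 1
        push_cast
        ring
      rw [h4]
      ring
  rw [e1, ← Finset.mul_sum]
  have e2 : ∑ t ∈ range p, qc p (((n' * t : ℕ) : ZMod p) * (j + ((n' * t : ℕ) : ZMod p)) *
        (j + 2 * ((n' * t : ℕ) : ZMod p))) =
      ∑ x : ZMod p, qc p (x * (j + x) * (j + 2 * x)) := by
    rw [← Fintype.sum_equiv (Equiv.mulLeft₀ (n' : ZMod p) hn'0)
      (fun x => qc p (n' * x * (j + n' * x) * (j + 2 * (n' * x)))) _ (fun x => rfl),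
      sum_zmod (fun x : ZMod p => qc p (n' * x * (j + n' * x) * (j + 2 * (n' * x))))]
    refine Finset.sum_congr rfl fun t _ => ?_
    push_cast
    rfl
  rw [e2, sum_cubic hp, mul_zero]

lemma det_squarefree {n' : ℕ} (hp : p % 4 = 3) (hcop : Nat.Coprime p n') (h1 : 1 < n')
    (hodd : n' % 2 = 1) : (M (p * n')).det = 0 := by
  have hpr := (Fact.out : p.Prime)
  have hp3 : 3 ≤ p := by omega
  have hn3 : 3 ≤ n' := by omega
  have hbig : 3 * n' ≤ p * n' := Nat.mul_le_mul_right _ hp3
  rw [← exists_mulVec_eq_zero_iff]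
  refine ⟨fun k => if n' ∣ (k : ℕ) then jacobiSym (k : ℕ) p else 0, ?_, ?_⟩
  · intro h
    have hmem : n' ∈ Finset.Ioo 1 (p * n' - 1) := by rw [Finset.mem_Ioo]; omega
    have h2 := congrFun h ⟨n', hmem⟩
    simp only [dvd_refl, if_true, Pi.zero_apply] at h2
    rw [jacobiSym.eq_zero_iff] at h2
    have h3 := h2.2
    rw [Int.gcd_natCast_natCast] at h3
    exact h3 (Nat.Coprime.symm hcop)
  · ext j
    rw [mulVec, dotProduct, Pi.zero_apply]
    have h2 := sum_mult hp hcop h1 (j : ℤ)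
    have h3 : ∑ k : Finset.Ioo 1 (p * n' - 1), M (p * n') j k *
        (if n' ∣ (k : ℕ) then jacobiSym (k : ℕ) p else 0) =
        ∑ k ∈ Finset.Ioo 1 (p * n' - 1),
          jacobiSym ((j : ℤ) ^ 2 + 3 * j * k + 2 * (k : ℤ) ^ 2) (p * n') *
          (if n' ∣ k then jacobiSym k p else 0) := by
      rw [← Finset.sum_coe_sort (Finset.Ioo 1 (p * n' - 1))]
      rfl
    rw [h3]
    refine Eq.trans ?_ h2
    apply Finset.sum_subset
    · intro k hk
      rw [Finset.mem_Ioo] at hk
      rw [Finset.mem_range]; omega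
    · intro k hk hk'
      rw [Finset.mem_range] at hk
      rw [Finset.mem_Ioo] at hk'
      have h4 : k = 0 ∨ k = 1 ∨ k = p * n' - 1 := by omega
      rcases h4 with h4 | h4 | h4
      · rw [h4]
        have : jacobiSym ((0 : ℕ) : ℤ) p = 0 := by
          rw [Nat.cast_zero]; exact jacobiSym.zero_left hpr.one_lt
        rw [this]; simp
      · rw [if_neg, mul_zero]
        intro h5
        rw [h4] at h5
        have := Nat.le_of_dvd one_pos h5
        omega
      · rw [if_neg, mul_zero]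
        intro h5
        rw [h4] at h5
        have h6 : n' ∣ p * n' := Dvd.intro_left _ rfl
        have h7 := Nat.dvd_sub h6 h5
        rw [show p * n' - (p * n' - 1) = 1 by omega] at h7
        have := Nat.le_of_dvd one_pos h7
        omega

end

/-! ### Primes -/

section

variable {p N : ℕ} [Fact p.Prime] [NeZero N]

/-- the power of `γ` with exponent in `ZMod N` -/
def pw (γ : ZMod p) (t : ZMod N) : ZMod p := γ ^ t.val

lemma pw_add {γ : ZMod p} (hγ : γ ^ N = 1) (s t : ZMod N) : pw γ (s + t) = pw γ s * pw γ t := by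
  unfold pw
  rw [ZMod.val_add, ← pow_add]
  conv_rhs => rw [← Nat.div_add_mod (s.val + t.val) N, pow_add, pow_mul, hγ, one_pow, one_mul]

lemma pw_zero (γ : ZMod p) : pw γ (0 : ZMod N) = 1 := by
  unfold pw; rw [ZMod.val_zero, pow_zero]

/-- A generator of the group of the squares. -/
lemma exists_gen (hp : p % 4 = 3) (hN : p = 2 * N + 1) : ∃ γ : ZMod p, γ ^ N = 1 ∧ γ ≠ 0 ∧
    (∀ t : ZMod N, pw γ t = 1 → t = 0) ∧ ∀ x : ZMod p, qc p x = 1 → ∃ t : ZMod N, x = pw γ t := by
  obtain ⟨g, hg⟩ := IsCyclic.exists_generator (α := (ZMod p)ˣ)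
  have hord : orderOf g = p - 1 := by
    rw [orderOf_eq_card_of_forall_mem_zpowers hg, Nat.card_eq_fintype_card, ZMod.card_units]
  have hordN : orderOf (g ^ 2) = N := by
    rw [orderOf_pow' g (by norm_num), hord]
    have : Nat.gcd (p - 1) 2 = 2 := Nat.gcd_eq_right ⟨N, by omega⟩
    rw [this]; omega
  have hgN : g ^ (2 * N) = 1 := by
    rw [show 2 * N = p - 1 by omega, ← hord, pow_orderOf_eq_one]
  refine ⟨((g ^ 2 : (ZMod p)ˣ) : ZMod p), ?_, Units.ne_zero _, ?_, ?_⟩
  · rw [← Units.val_pow_eq_pow_val, ← pow_mul, hgN, Units.val_one]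
  · intro t ht
    unfold pw at ht
    rw [← Units.val_pow_eq_pow_val, Units.val_eq_one] at ht
    have h1 := orderOf_dvd_of_pow_eq_one ht
    rw [hordN] at h1
    have h2 := ZMod.val_lt t
    have h3 : t.val = 0 := Nat.eq_zero_of_dvd_of_lt h1 h2
    exact (ZMod.val_eq_zero t).1 h3
  · intro x hx
    have hx0 : x ≠ 0 := by
      rintro rfl
      rw [qc_zero] at hx
      norm_num at hx
    obtain ⟨y, hy⟩ := (quadraticChar_one_iff_isSquare hx0).1 hx
    have hy0 : y ≠ 0 := by rintro rfl; exact hx0 (by rw [hy, mul_zero])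
    obtain ⟨k, hk⟩ := (Submonoid.mem_powers_iff _ _).1
      ((mem_powers_iff_mem_zpowers).2 (hg (Units.mk0 y hy0)))
    refine ⟨(k : ZMod N), ?_⟩
    unfold pw
    rw [ZMod.val_natCast, hy]
    have h4 : y = ((g ^ k : (ZMod p)ˣ) : ZMod p) := by rw [hk]; rfl
    rw [h4, ← Units.val_mul, ← Units.val_pow_eq_pow_val]
    congr 1
    rw [← pow_add, ← pow_mul]
    conv_lhs => rw [← two_mul, ← Nat.div_add_mod k N, mul_add, pow_add,
      show 2 * (N * (k / N)) = (2 * N) * (k / N) by ring, pow_mul, hgN, one_pow, one_mul]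

/-- The function `f(x) = ((1 + x)(1 + 2 x) / p)`. -/
def ff (p : ℕ) [Fact p.Prime] (x : ZMod p) : ℤ := qc p ((1 + x) * (1 + 2 * x))

lemma qc_pw {γ : ZMod p} (hγ : γ ^ N = 1) (hγ0 : γ ≠ 0) (hN : Odd N) (t : ZMod N) :
    qc p (pw γ t) = 1 := by
  have h1 : qc p γ = 1 := by
    have h2 := congrArg (qc p) hγ
    rw [qc_pow, qc_one] at h2
    rcases qc_cases hγ0 with h | h
    · exact h
    · rw [h, hN.neg_one_pow] at h2
      norm_num at h2
  unfold pw
  rw [qc_pow, h1, one_pow]

lemma pw_ne {γ : ZMod p} (hγ0 : γ ≠ 0) (t : ZMod N) : pw γ t ≠ 0 := pow_ne_zero _ hγ0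

/-- The sum over the nonzero residues. -/
lemma sum_pm {γ : ZMod p} (hp : p % 4 = 3) (hγ : γ ^ N = 1) (hγ0 : γ ≠ 0)
    (hinj : ∀ t : ZMod N, pw γ t = 1 → t = 0) (hodd : Odd N)
    (hsur : ∀ x : ZMod p, qc p x = 1 → ∃ t : ZMod N, x = pw γ t) (h : ZMod p → ℤ) :
    ∑ x : ZMod p, h x = h 0 + ∑ t : ZMod N, (h (pw γ t) + h (-pw γ t)) := by
  have hinj' : Function.Injective (fun t : ZMod N => pw γ t) := by
    intro s t hst
    simp only at hst
    have h1 : pw γ (s - t) = 1 := by
      have h2 := pw_add hγ (s - t) t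
      rw [sub_add_cancel, hst] at h2
      have h3 := pw_ne hγ0 t
      exact (mul_right_cancel₀ h3 (by rw [one_mul]; exact h2)).symm
    exact sub_eq_zero.1 (hinj _ h1)
  have hneg : ∀ x : ZMod p, qc p (-x) = -qc p x := fun x => by
    rw [qc_neg, qc_neg_one_of_three hp]; ring
  have e1 : ∑ x ∈ Finset.univ.filter (fun x : ZMod p => qc p x = 1), h x =
      ∑ t : ZMod N, h (pw γ t) := by
    symm
    refine Finset.sum_bij (fun t _ => pw γ t) ?_ ?_ ?_ ?_
    · intro t _
      rw [Finset.mem_filter]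
      exact ⟨Finset.mem_univ _, qc_pw hγ hγ0 hodd t⟩
    · intro a _ b _ hab; exact hinj' hab
    · intro x hx
      obtain ⟨t, ht⟩ := hsur x (Finset.mem_filter.1 hx).2
      exact ⟨t, Finset.mem_univ _, ht.symm⟩
    · intro t _; rfl
  have e2 : ∑ x ∈ Finset.univ.filter (fun x : ZMod p => qc p x = -1), h x =
      ∑ t : ZMod N, h (-pw γ t) := by
    symm
    refine Finset.sum_bij (fun t _ => -pw γ t) ?_ ?_ ?_ ?_
    · intro t _
      rw [Finset.mem_filter]
      refine ⟨Finset.mem_univ _, ?_⟩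
      rw [hneg, qc_pw hγ hγ0 hodd]
    · intro a _ b _ hab; exact hinj' (neg_injective hab)
    · intro x hx
      obtain ⟨t, ht⟩ := hsur (-x) (by rw [hneg, (Finset.mem_filter.1 hx).2]; norm_num)
      exact ⟨t, Finset.mem_univ _, by rw [← ht, neg_neg]⟩
    · intro t _; rfl
  have e3 : ∀ x : ZMod p, h x = (if x = 0 then h x else 0) + (if qc p x = 1 then h x else 0) +
      (if qc p x = -1 then h x else 0) := by
    intro x
    by_cases hx : x = 0
    · rw [hx, qc_zero]; norm_num
    · rw [if_neg hx]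
      rcases qc_cases hx with h1 | h1
      · rw [h1]; norm_num
      · rw [h1]; norm_num
  rw [Finset.sum_congr rfl fun x _ => e3 x, Finset.sum_add_distrib, Finset.sum_add_distrib,
    ← Finset.sum_filter, ← Finset.sum_filter, ← Finset.sum_filter, e1, e2,
    Finset.sum_add_distrib, Finset.filter_eq', if_pos (Finset.mem_univ _), Finset.sum_singleton]
  ring

lemma ff_inv (hp : p % 8 = 3) {x : ZMod p} (hx : x ≠ 0) : ff p ((2 * x)⁻¹) = -ff p x := by
  have hp2 : p ≠ 2 := by omega
  have h2 : (2 : ZMod p) ≠ 0 := by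
    intro h
    have h3 : ((2 : ℕ) : ZMod p) = 0 := by push_cast; exact h
    rw [ZMod.natCast_eq_zero_iff] at h3
    have := Nat.le_of_dvd (by norm_num) h3
    omega
  have hq2 : qc p (2 : ZMod p) = -1 := by
    have h3 : ((2 : ℕ) : ZMod p) = 2 := by push_cast; rfl
    have h4 := ZMod.χ₈_nat_eq_if_mod_eight p
    rw [if_neg (by omega), if_neg (by omega)] at h4
    rw [← h4]
    exact quadraticChar_two (by rwa [ZMod.ringChar_zmod_n])
      |>.trans (by rw [ZMod.card])
  unfold ff
  have h5 : (1 + x) * (1 + 2 * x) = 2 * ((1 + (2 * x)⁻¹) * (1 + 2 * (2 * x)⁻¹)) * x ^ 2 := by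
    field_simp
    ring
  have h6 : qc p (x ^ 2) = 1 := by
    rw [pow_two, qc_mul, qc_sq hx]
  rw [h5, qc_mul _ (x ^ 2), qc_mul 2, h6, hq2]
  ring

/-- The equivalence of the index sets. -/
lemma exists_equiv {γ : ZMod p} (hp : p % 4 = 3) (hN : p = 2 * N + 1) (hγ : γ ^ N = 1) (hγ0 : γ ≠ 0)
    (hinj : ∀ t : ZMod N, pw γ t = 1 → t = 0) (hodd : Odd N) :
    ∃ e : ({t : ZMod N // t ≠ 0} ⊕ {t : ZMod N // t ≠ 0}) ≃ Finset.Ioo 1 (p - 1),
      (∀ a, (((e (Sum.inl a) : ℕ)) : ZMod p) = pw γ a.1) ∧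
      ∀ a, (((e (Sum.inr a) : ℕ)) : ZMod p) = -pw γ a.1 := by
  have hinj' : Function.Injective (fun t : ZMod N => pw γ t) := by
    intro s t hst
    simp only at hst
    have h1 : pw γ (s - t) = 1 := by
      have h2 := pw_add hγ (s - t) t
      rw [sub_add_cancel, hst] at h2
      have h3 := pw_ne hγ0 t
      exact (mul_right_cancel₀ h3 (by rw [one_mul]; exact h2)).symm
    exact sub_eq_zero.1 (hinj _ h1)
  have hneg : ∀ x : ZMod p, qc p (-x) = -qc p x := fun x => by
    rw [qc_neg, qc_neg_one_of_three hp]; ring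
  have hne : ∀ s t : ZMod N, pw γ s ≠ -pw γ t := by
    intro s t h
    have h1 := congrArg (qc p) h
    rw [hneg, qc_pw hγ hγ0 hodd, qc_pw hγ hγ0 hodd] at h1
    norm_num at h1
  have hmem : ∀ x : ZMod p, x ≠ 0 → x ≠ 1 → x ≠ -1 → x.val ∈ Finset.Ioo 1 (p - 1) := by
    intro x h0 h1 h2
    rw [Finset.mem_Ioo]
    have h3 := ZMod.val_lt x
    have h4 : x.val ≠ 0 := fun h => h0 ((ZMod.val_eq_zero x).1 h)
    have h5 : x.val ≠ 1 := by
      intro h
      apply h1
      rw [← ZMod.natCast_zmod_val x, h, Nat.cast_one]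
    have h6 : x.val ≠ p - 1 := by
      intro h
      apply h2
      rw [← ZMod.natCast_zmod_val x, h, Nat.cast_sub (by omega), ZMod.natCast_self]
      simp
    omega
  have hm1 : ∀ a : {t : ZMod N // t ≠ 0}, (pw γ a.1).val ∈ Finset.Ioo 1 (p - 1) := by
    intro a
    refine hmem _ (pw_ne hγ0 _) (fun h => a.2 (hinj _ h)) ?_
    have := hne a.1 0
    rw [pw_zero] at this
    exact this
  have hm2 : ∀ a : {t : ZMod N // t ≠ 0}, (-pw γ a.1).val ∈ Finset.Ioo 1 (p - 1) := by
    intro a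
    refine hmem _ (neg_ne_zero.2 (pw_ne hγ0 _)) ?_ (fun h => a.2 (hinj _ (neg_injective h)))
    intro h
    have := hne 0 a.1
    rw [pw_zero] at this
    exact this h.symm
  let f : ({t : ZMod N // t ≠ 0} ⊕ {t : ZMod N // t ≠ 0}) → Finset.Ioo 1 (p - 1) :=
    Sum.elim (fun a => ⟨(pw γ a.1).val, hm1 a⟩) (fun a => ⟨(-pw γ a.1).val, hm2 a⟩)
  have hf : Function.Bijective f := by
    rw [Fintype.bijective_iff_injective_and_card]
    constructor
    · rintro (a | a) (b | b) hab
      · have h1 := ZMod.val_injective p (congrArg Subtype.val hab)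
        exact congrArg Sum.inl (Subtype.ext (hinj' h1))
      · have h1 := ZMod.val_injective p (congrArg Subtype.val hab)
        exact absurd h1 (hne _ _)
      · have h1 := ZMod.val_injective p (congrArg Subtype.val hab)
        exact absurd h1.symm (hne _ _)
      · have h1 := ZMod.val_injective p (congrArg Subtype.val hab)
        exact congrArg Sum.inr (Subtype.ext (hinj' (neg_injective h1)))
    · rw [Fintype.card_sum, Fintype.card_coe, Nat.card_Ioo]
      have h1 : Fintype.card {t : ZMod N // t ≠ 0} = N - 1 := by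
        rw [Fintype.card_subtype_compl, Fintype.card_subtype_eq, ZMod.card]
      rw [h1]
      have := NeZero.pos N
      omega
  refine ⟨Equiv.ofBijective f hf, fun a => ?_, fun a => ?_⟩
  · exact ZMod.natCast_zmod_val _
  · exact ZMod.natCast_zmod_val _

lemma minor_det (g : ZMod N → ℤ) :
    (Matrix.of fun a b : {t : ZMod N // t ≠ 0} => g (b.1 - a.1)).det = kap g := by
  rw [kap, ← minor_eq, ← det_transpose]
  rfl

lemma det_prime (hp : p % 8 = 3) (hN : p = 2 * N + 1) (hodd : Odd N) :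
    ∃ x : ℤ, (M p).det = N * x ^ 2 := by
  obtain ⟨γ, hγ, hγ0, hinj, hsur⟩ := exists_gen (p := p) (N := N) (by omega) hN
  obtain ⟨e, he1, he2⟩ := exists_equiv (p := p) (N := N) (by omega) hN hγ hγ0 hinj hodd
  have h2 : (2 : ZMod p) ≠ 0 := by
    intro h
    have h3 : ((2 : ℕ) : ZMod p) = 0 := by push_cast; exact h
    rw [ZMod.natCast_eq_zero_iff] at h3
    have := Nat.le_of_dvd (by norm_num) h3
    omega
  have hpm : ∀ s t : ZMod N, pw γ (s - t) * pw γ t = pw γ s := by
    intro s t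
    rw [← pw_add hγ, sub_add_cancel]
  set F1 : ZMod N → ℤ := fun t => ff p (pw γ t) with hF1
  set F2 : ZMod N → ℤ := fun t => ff p (-pw γ t) with hF2
  have hentry : ∀ (x y : Finset.Ioo 1 (p - 1)) (z : ZMod p), (((x : ℕ)) : ZMod p) ≠ 0 →
      z * (((x : ℕ)) : ZMod p) = (((y : ℕ)) : ZMod p) → M p x y = ff p z := by
    intro x y z hx hz
    rw [M, of_apply, jacobi_prime]
    unfold ff
    push_cast
    rw [← hz, show ((x : ℕ) : ZMod p) ^ 2 + 3 * ((x : ℕ) : ZMod p) * (z * ((x : ℕ) : ZMod p)) +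
      2 * (z * ((x : ℕ) : ZMod p)) ^ 2 = (1 + z) * (1 + 2 * z) * ((x : ℕ) : ZMod p) ^ 2 by ring,
      qc_mul _ (((x : ℕ) : ZMod p) ^ 2), pow_two (((x : ℕ) : ZMod p)), qc_mul (((x : ℕ) : ZMod p)),
      qc_sq hx, mul_one]
  have hM : (M p).submatrix e e = fromBlocks
      (Matrix.of fun a b : {t : ZMod N // t ≠ 0} => F1 (b.1 - a.1))
      (Matrix.of fun a b : {t : ZMod N // t ≠ 0} => F2 (b.1 - a.1))
      (Matrix.of fun a b : {t : ZMod N // t ≠ 0} => F2 (b.1 - a.1))
      (Matrix.of fun a b : {t : ZMod N // t ≠ 0} => F1 (b.1 - a.1)) := by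
    ext (a | a) (b | b)
    · rw [submatrix_apply, fromBlocks_apply₁₁, of_apply, hF1]
      apply hentry
      · rw [he1]; exact pw_ne hγ0 _
      · rw [he1, he1, hpm]
    · rw [submatrix_apply, fromBlocks_apply₁₂, of_apply, hF2]
      apply hentry
      · rw [he1]; exact pw_ne hγ0 _
      · rw [he1, he2, neg_mul, hpm]
    · rw [submatrix_apply, fromBlocks_apply₂₁, of_apply, hF2]
      apply hentry
      · rw [he2]; exact neg_ne_zero.2 (pw_ne hγ0 _)
      · rw [he1, he2, neg_mul_neg, hpm]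
    · rw [submatrix_apply, fromBlocks_apply₂₂, of_apply, hF1]
      apply hentry
      · rw [he2]; exact neg_ne_zero.2 (pw_ne hγ0 _)
      · rw [he2, he2, mul_neg, hpm]
  have hdet : (M p).det = kap (fun t => F1 t + F2 t) * kap (fun t => F1 t - F2 t) := by
    rw [← det_submatrix_equiv_self e, hM, det_blocks, ← minor_det, ← minor_det]
    rfl
  -- the symmetries
  obtain ⟨d, hd⟩ : ∃ d : ZMod N, -(2 : ZMod p)⁻¹ = pw γ d := by
    apply hsur
    have h3 : qc p (-(2 : ZMod p)⁻¹) * qc p (-2 : ZMod p) = 1 := by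
      rw [← qc_mul, neg_mul_neg, inv_mul_cancel₀ h2, qc_one]
    have h4 : qc p (-2 : ZMod p) = 1 := by
      have h5 := ff_inv hp (x := 1) one_ne_zero
      have h6 : qc p (2 : ZMod p) = -1 := by
        have h4 := ZMod.χ₈_nat_eq_if_mod_eight p
        rw [if_neg (by omega), if_neg (by omega)] at h4
        rw [← h4]
        exact quadraticChar_two (by rw [ZMod.ringChar_zmod_n]; omega)
          |>.trans (by rw [ZMod.card])
      rw [qc_neg, qc_neg_one_of_three (by omega), h6]
      norm_num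
    rw [h4, mul_one] at h3
    exact h3
  have hdt : ∀ t, pw γ (d - t) = -((2 * pw γ t)⁻¹) := by
    intro t
    have h3 := pw_ne (N := N) hγ0 t
    have h4 := hpm d t
    rw [← hd] at h4
    field_simp at h4 ⊢
    linear_combination h4
  have hs1 : ∀ t, F2 (d - t) = -F1 t := by
    intro t
    simp only [hF1, hF2]
    rw [hdt, neg_neg, ff_inv hp (pw_ne hγ0 t)]
  have hs2 : ∀ t, F1 (d - t) = -F2 t := by
    intro t
    simp only [hF1, hF2]
    rw [hdt, ← inv_neg, ← mul_neg, ff_inv hp (neg_ne_zero.2 (pw_ne hγ0 t))]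
  have hsum1 : ∑ t, (F1 t + F2 t) = 0 := by
    have h3 : ∑ t, (F1 (d - t) + F2 (d - t)) = ∑ t, (F1 t + F2 t) :=
      Fintype.sum_equiv (Equiv.subLeft d) _ _ fun _ => rfl
    have h4 : ∀ t, F1 (d - t) + F2 (d - t) = -(F1 t + F2 t) := by
      intro t; rw [hs1, hs2]; ring
    rw [Finset.sum_congr rfl fun t _ => h4 t, Finset.sum_neg_distrib] at h3
    linarith
  have hsum2 : ∑ t, (F1 t - F2 t) = 0 := by
    have h3 := sum_cubic (p := p) (by omega) 1
    rw [sum_pm (by omega) hγ hγ0 hinj hodd hsur, zero_mul, zero_mul, qc_zero, zero_add] at h3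
    rw [← h3]
    refine Finset.sum_congr rfl fun t _ => ?_
    simp only [hF1, hF2, ff]
    rw [mul_assoc, mul_assoc, qc_mul (pw γ t), qc_mul (-pw γ t), qc_neg, qc_neg_one_of_three (by omega),
      qc_pw hγ hγ0 hodd]
    ring
  obtain ⟨a, ha⟩ := kap_skew hodd (fun t => F1 t + F2 t) hsum1 d
    (fun t => by simp only [hs1, hs2]; ring)
  obtain ⟨b, hb⟩ := kap_symm hodd (fun t => F1 t - F2 t) hsum2 d
    (fun t => by simp only [hs1, hs2]; ring)
  refine ⟨a * b, ?_⟩
  rw [hdet, ha, hb]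
  ring

end

/-- For every positive integer `n ≡ 3 (mod 8)`, the determinant `{3,2}_n` is `φ(n)/2` times a square. -/
theorem result (n : ℕ) (hn : n % 8 = 3) :
    ∃ x : ℤ, (M n).det = ((Nat.totient n / 2 : ℕ) : ℤ) * x ^ 2 := by
  -- a prime factor `p ≡ 3 (mod 4)`
  obtain ⟨p, hp, hpn, hp4⟩ : ∃ p : ℕ, p.Prime ∧ p ∣ n ∧ p % 4 = 3 := by
    by_contra hcon
    push Not at hcon
    have key : ∀ m : ℕ, m ∣ n → m % 4 = 1 := by
      intro m
      induction m using Nat.recOnMul with
      | zero => intro h; rw [zero_dvd_iff] at h; omega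
      | one => intro _; rfl
      | prime p hp =>
        intro h
        have h1 := hcon p hp h
        have h2 : p % 2 = 1 := by
          rcases hp.eq_two_or_odd with h2 | h2
          · exfalso
            rw [h2] at h
            omega
          · exact h2
        omega
      | mul a b ha hb =>
        intro h
        have h1 := ha (dvd_of_mul_right_dvd h)
        have h2 := hb (dvd_of_mul_left_dvd h)
        rw [Nat.mul_mod, h1, h2]
    have := key n dvd_rfl
    omega
  have : Fact p.Prime := ⟨hp⟩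
  obtain ⟨n', rfl⟩ := hpn
  have hodd : n' % 2 = 1 := by
    rcases Nat.mod_two_eq_zero_or_one n' with h | h
    · exfalso
      obtain ⟨k, hk⟩ := Nat.dvd_of_mod_eq_zero h
      rw [hk, show p * (2 * k) = 2 * (p * k) by ring] at hn
      omega
    · exact h
  by_cases h1 : n' = 1
  · subst h1
    rw [mul_one] at hn ⊢
    rw [Nat.totient_prime hp]
    have : NeZero ((p - 1) / 2) := ⟨by omega⟩
    exact det_prime hn (by omega) (Nat.odd_iff.2 (by omega))
  · refine ⟨0, ?_⟩
    rw [zero_pow (by norm_num), mul_zero]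
    by_cases hcop : Nat.Coprime p n'
    · exact det_squarefree hp4 hcop (by omega) hodd
    · have h2 : p ∣ n' := by
        by_contra h3
        exact hcop ((Nat.Prime.coprime_iff_not_dvd hp).2 h3)
      obtain ⟨m, rfl⟩ := h2
      refine det_nonsquarefree (p := p) (m := m) hp.one_lt ?_ rfl (by omega)
      rcases Nat.eq_zero_or_pos m with h3 | h3
      · rw [h3] at hodd
        omega
      · exact h3

end Pool.Agent.Results.MP_72abcc_nt.TotientSquare
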